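import Pool.Agent.Q6.Tower.Group

/-!
# MP_caf75b_al : infinite towers of abelian extensions of connected quandles

There is no infinite tower of nontrivial abelian extensions of finite connected quandles.
-/

namespace Pool.Agent.Results.MP_caf75b_al.NoInfiniteTower

open scoped commutatorElement

/-- `op` is a quandle operation. -/
def IsQuandle {X : Type} (op : X → X → X) : Prop :=
  (∀ a, op a a = a) ∧ (∀ b c, ∃! a, op a b = c) ∧ ∀ a b c, op (op a b) c = op (op a c) (op b c)

/-- The inner automorphism group, generated by the right translations. -/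
def Inn {X : Type} (op : X → X → X) : Subgroup (Equiv.Perm X) :=
  Subgroup.closure {g | ∃ b, ∀ x, g x = op x b}

/-- The inner automorphism group acts transitively. -/
def Connected {X : Type} (op : X → X → X) : Prop := ∀ x y : X, ∃ g ∈ Inn op, g x = y

/-- `φ` is a quandle 2-cocycle with values in `A`. -/
def IsCocycle {X A : Type} [AddCommGroup A] (op : X → X → X) (φ : X → X → A) : Prop :=
  (∀ x y z, φ x y - φ x z + φ (op x y) z - φ (op x z) (op y z) = 0) ∧ ∀ x, φ x x = 0

/-- The quandle `(X', op')` is isomorphic to an abelian extension of `(X, op)` by a nontrivial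
abelian group. -/
def IsAbelianExtension {X X' : Type} (op : X → X → X) (op' : X' → X' → X') : Prop :=
  ∃ (A : Type) (_ : AddCommGroup A) (_ : Nontrivial A) (φ : X → X → A) (e : X' ≃ X × A),
    IsCocycle op φ ∧ ∀ u v, e (op' u v) = (op (e u).1 (e v).1, (e u).2 + φ (e u).1 (e v).1)

section OneQuandle

variable {X : Type} {op : X → X → X}

/-- The right translation. -/
noncomputable def tr (h : IsQuandle op) (b : X) : Equiv.Perm X :=
  Equiv.ofBijective (fun x => op x b) (by
    constructor
    · intro x y hxy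
      obtain ⟨a, -, ha⟩ := h.2.1 b (op y b)
      exact (ha x hxy).trans (ha y rfl).symm
    · intro c
      obtain ⟨a, ha, -⟩ := h.2.1 b c
      exact ⟨a, ha⟩)

theorem tr_apply (h : IsQuandle op) (b x : X) : tr h b x = op x b := rfl

theorem tr_mem (h : IsQuandle op) (b : X) : tr h b ∈ Inn op :=
  Subgroup.subset_closure ⟨b, fun _ => rfl⟩

/-- Induction over the inner automorphism group. -/
theorem inn_induction (h : IsQuandle op) (P : Equiv.Perm X → Prop) (h1 : P 1)
    (htr : ∀ b, P (tr h b)) (hmul : ∀ x y, P x → P y → P (x * y)) (hinv : ∀ x, P x → P x⁻¹)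
    {g : Equiv.Perm X} (hg : g ∈ Inn op) : P g := by
  unfold Inn at hg
  induction hg using Subgroup.closure_induction with
  | mem x hx =>
    obtain ⟨b, hb⟩ := hx
    have : x = tr h b := Equiv.ext hb
    rw [this]; exact htr b
  | one => exact h1
  | mul x y _ _ hx hy => exact hmul x y hx hy
  | inv x _ hx => exact hinv x hx

theorem inn_auto (h : IsQuandle op) {g : Equiv.Perm X} (hg : g ∈ Inn op) :
    ∀ x y, g (op x y) = op (g x) (g y) := by
  refine inn_induction h (fun g => ∀ x y, g (op x y) = op (g x) (g y)) ?_ ?_ ?_ ?_ hg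
  · intro x y; rfl
  · intro b x y
    exact h.2.2 x y b
  · intro a b ha hb x y
    rw [Equiv.Perm.mul_apply, Equiv.Perm.mul_apply, Equiv.Perm.mul_apply, hb, ha]
  · intro a ha x y
    apply a.injective
    rw [ha]
    simp

theorem conj_tr (h : IsQuandle op) {g : Equiv.Perm X} (hg : g ∈ Inn op) (b : X) :
    g * tr h b * g⁻¹ = tr h (g b) := by
  ext x
  rw [Equiv.Perm.mul_apply, Equiv.Perm.mul_apply, tr_apply, tr_apply, inn_auto h hg]
  simp

/-- The translation as an element of the inner automorphism group. -/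
noncomputable def trI (h : IsQuandle op) (b : X) : Inn op := ⟨tr h b, tr_mem h b⟩

theorem gen_inn (h : IsQuandle op) (hc : Connected op) (x0 : X) : Q6.Tower.Gen (trI h x0) := by
  unfold Q6.Tower.Gen
  rw [Subgroup.eq_top_iff']
  rintro ⟨g, hg⟩
  have key : ∀ g : Equiv.Perm X, g ∈ Inn op → ∃ hg : g ∈ Inn op, (⟨g, hg⟩ : Inn op) ∈
      Subgroup.closure {x : Inn op | ∃ g : Inn op, x = g * trI h x0 * g⁻¹} := by
    intro g hg
    refine inn_induction h (fun g => ∃ hg : g ∈ Inn op, (⟨g, hg⟩ : Inn op) ∈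
      Subgroup.closure {x : Inn op | ∃ g : Inn op, x = g * trI h x0 * g⁻¹}) ?_ ?_ ?_ ?_ hg
    · exact ⟨Subgroup.one_mem _, Subgroup.one_mem _⟩
    · intro b
      refine ⟨tr_mem h b, Subgroup.subset_closure ?_⟩
      obtain ⟨k, hk, hkb⟩ := hc x0 b
      refine ⟨⟨k, hk⟩, Subtype.ext ?_⟩
      show tr h b = k * tr h x0 * k⁻¹
      rw [conj_tr h hk, hkb]
    · rintro x y ⟨hx, hx'⟩ ⟨hy, hy'⟩
      exact ⟨Subgroup.mul_mem _ hx hy, Subgroup.mul_mem _ hx' hy'⟩
    · rintro x ⟨hx, hx'⟩
      exact ⟨Subgroup.inv_mem _ hx, Subgroup.inv_mem _ hx'⟩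
  exact (key g hg).2

/-- A finite connected quandle has at most as many elements as the derived subgroup of its
inner automorphism group. -/
theorem card_le [Finite X] (h : IsQuandle op) (hc : Connected op) (x0 : X) :
    Nat.card X ≤ Nat.card (_root_.commutator (Inn op)) := by
  have hn : (_root_.commutator (Inn op)).Normal := inferInstance
  have key : ∀ g : Inn op, ∃ d ∈ _root_.commutator (Inn op), (g : Equiv.Perm X) x0 =
      (d : Equiv.Perm X) x0 := by
    intro g
    refine Q6.Tower.gen_induction (gen_inn h hc x0) (fun g => ∃ d ∈ _root_.commutator (Inn op),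
      (g : Equiv.Perm X) x0 = (d : Equiv.Perm X) x0) ?_ ?_ ?_ ?_ ?_ g
    · exact ⟨1, Subgroup.one_mem _, rfl⟩
    · intro d hd; exact ⟨d, hd, rfl⟩
    · exact ⟨1, Subgroup.one_mem _, h.1 x0⟩
    · rintro x y ⟨dx, hdx, hx⟩ ⟨dy, hdy, hy⟩
      refine ⟨x * dy * x⁻¹ * dx, Subgroup.mul_mem _ (hn.conj_mem _ hdy x) hdx, ?_⟩
      simp only [Subgroup.coe_mul, Equiv.Perm.mul_apply, Subgroup.coe_inv]
      rw [← hx, hy]
      simp
    · rintro x ⟨d, hd, hx⟩
      have h2 := hn.conj_mem _ hd x⁻¹
      rw [inv_inv] at h2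
      refine ⟨(x⁻¹ * d * x)⁻¹, Subgroup.inv_mem _ h2, ?_⟩
      simp only [mul_inv_rev, inv_inv, Subgroup.coe_mul, Subgroup.coe_inv, Equiv.Perm.mul_apply]
      congr 1
      rw [Equiv.Perm.eq_inv_iff_eq, ← hx]
  apply Nat.card_le_card_of_surjective
    (fun d : _root_.commutator (Inn op) => ((d : Inn op) : Equiv.Perm X) x0)
  intro y
  obtain ⟨g, hg, hgy⟩ := hc x0 y
  obtain ⟨d, hd, hdy⟩ := key ⟨g, hg⟩
  exact ⟨⟨d, hd⟩, hdy.symm.trans hgy⟩

end OneQuandle

section Tower

variable {X : ℕ → Type} (op : ∀ n, X n → X n → X n) (pr : ∀ n, X (n + 1) → X n)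

/-- `E n j x y`: the elements `x, y` of `X n` have the same image `j` levels below (or in
`X 0`). -/
def E : (n : ℕ) → ℕ → X n → X n → Prop
  | 0, _, x, y => x = y
  | _ + 1, 0, x, y => x = y
  | n + 1, j + 1, x, y => E n j (pr n x) (pr n y)

/-- The map to the bottom. -/
def P : (n : ℕ) → X n → X 0
  | 0, x => x
  | n + 1, x => P n (pr n x)

theorem E_zero (n : ℕ) (x y : X n) : E pr n 0 x y ↔ x = y := by
  cases n <;> rfl

theorem E_refl (n j : ℕ) (x : X n) : E pr n j x x := by
  induction n generalizing j with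
  | zero => exact rfl
  | succ n ih =>
    cases j with
    | zero => exact rfl
    | succ j => exact ih j (pr n x)

theorem E_symm (n j : ℕ) (x y : X n) (h : E pr n j x y) : E pr n j y x := by
  induction n generalizing j with
  | zero => exact Eq.symm h
  | succ n ih =>
    cases j with
    | zero => exact Eq.symm h
    | succ j => exact ih j _ _ h

theorem E_trans (n j : ℕ) (x y z : X n) (h : E pr n j x y) (h' : E pr n j y z) :
    E pr n j x z := by
  induction n generalizing j with
  | zero => exact Eq.trans h h'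
  | succ n ih =>
    cases j with
    | zero => exact Eq.trans h h'
    | succ j => exact ih j _ _ _ h h'

theorem E_P (n : ℕ) (x y : X n) : E pr n n x y ↔ P pr n x = P pr n y := by
  induction n with
  | zero => rfl
  | succ n ih => exact ih _ _

variable {op pr}

theorem E_op (hP1 : ∀ n u v, pr n (op (n + 1) u v) = op n (pr n u) (pr n v)) (n j : ℕ)
    (x y z : X n) (h : E pr n j x y) : E pr n j (op n x z) (op n y z) := by
  induction n generalizing j with
  | zero =>
    have h' : x = y := h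
    rw [h']; exact E_refl pr 0 j _
  | succ n ih =>
    cases j with
    | zero =>
      have h' : x = y := h
      rw [h']; exact E_refl pr (n + 1) 0 _
    | succ j =>
      show E pr n j (pr n (op (n + 1) x z)) (pr n (op (n + 1) y z))
      rw [hP1, hP1]
      exact ih j _ _ _ h

theorem E_op_inv (hq : ∀ n, IsQuandle (op n))
    (hP1 : ∀ n u v, pr n (op (n + 1) u v) = op n (pr n u) (pr n v)) (n j : ℕ)
    (x y z : X n) (h : E pr n j (op n x z) (op n y z)) : E pr n j x y := by
  induction n generalizing j with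
  | zero =>
    have h' : tr (hq 0) z x = tr (hq 0) z y := h
    exact (tr (hq 0) z).injective h'
  | succ n ih =>
    cases j with
    | zero =>
      have h' : tr (hq (n + 1)) z x = tr (hq (n + 1)) z y := h
      exact (tr (hq (n + 1)) z).injective h'
    | succ j =>
      have h' : E pr n j (pr n (op (n + 1) x z)) (pr n (op (n + 1) y z)) := h
      rw [hP1, hP1] at h'
      exact ih j _ _ _ h'

theorem E_step (hP1 : ∀ n u v, pr n (op (n + 1) u v) = op n (pr n u) (pr n v))
    (hP2 : ∀ n u v v', pr n v = pr n v' → op (n + 1) u v = op (n + 1) u v') (n j : ℕ)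
    (x z z' : X n) (h : E pr n (j + 1) z z') : E pr n j (op n x z) (op n x z') := by
  induction n generalizing j with
  | zero =>
    have h' : z = z' := h
    rw [h']; exact E_refl pr 0 j _
  | succ n ih =>
    cases j with
    | zero =>
      have h' : pr n z = pr n z' := (E_zero pr n _ _).1 h
      rw [hP2 n x z z' h']
      exact E_refl pr (n + 1) 0 _
    | succ j =>
      show E pr n j (pr n (op (n + 1) x z)) (pr n (op (n + 1) x z'))
      rw [hP1, hP1]
      exact ih j _ _ _ h

theorem E_inn (hq : ∀ n, IsQuandle (op n))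
    (hP1 : ∀ n u v, pr n (op (n + 1) u v) = op n (pr n u) (pr n v)) (n j : ℕ)
    {g : Equiv.Perm (X n)} (hg : g ∈ Inn (op n)) :
    ∀ x y : X n, E pr n j x y ↔ E pr n j (g x) (g y) := by
  refine inn_induction (hq n) (fun g => ∀ x y, E pr n j x y ↔ E pr n j (g x) (g y)) ?_ ?_ ?_ ?_ hg
  · intro x y; rfl
  · intro b x y
    exact ⟨E_op hP1 n j x y b, E_op_inv hq hP1 n j x y b⟩
  · intro a b ha hb x y
    rw [hb x y, ha (b x) (b y)]
    rfl
  · intro a ha x y
    rw [ha (a⁻¹ x) (a⁻¹ y)]
    simp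

/-- The subgroup of the inner automorphism group acting trivially `j` levels below. -/
def Kj (hq : ∀ n, IsQuandle (op n))
    (hP1 : ∀ n u v, pr n (op (n + 1) u v) = op n (pr n u) (pr n v)) (n j : ℕ) :
    Subgroup (Inn (op n)) where
  carrier := {g | ∀ x, E pr n j ((g : Equiv.Perm (X n)) x) x}
  mul_mem' := by
    intro a b ha hb x
    exact E_trans pr n j _ _ _ (ha _) (hb x)
  one_mem' := by
    intro x
    exact E_refl pr n j x
  inv_mem' := by
    intro a ha x
    apply E_symm
    have h1 := ha (((a : Equiv.Perm (X n))⁻¹) x)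
    simpa using h1

theorem Kj_normal (hq : ∀ n, IsQuandle (op n))
    (hP1 : ∀ n u v, pr n (op (n + 1) u v) = op n (pr n u) (pr n v)) (n j : ℕ) :
    (Kj hq hP1 n j).Normal := by
  refine ⟨fun k hk g x => ?_⟩
  have h1 := hk (((g : Equiv.Perm (X n))⁻¹) x)
  have h2 := (E_inn hq hP1 n j g.2 _ _).1 h1
  simpa using h2

theorem Kj_step (hq : ∀ n, IsQuandle (op n))
    (hP1 : ∀ n u v, pr n (op (n + 1) u v) = op n (pr n u) (pr n v))
    (hP2 : ∀ n u v v', pr n v = pr n v' → op (n + 1) u v = op (n + 1) u v') (n j : ℕ)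
    (k : Inn (op n)) (hk : k ∈ Kj hq hP1 n (j + 1)) (g : Inn (op n)) :
    ⁅k, g⁆ ∈ Kj hq hP1 n j := by
  have hn := Kj_normal hq hP1 n j
  obtain ⟨g, hg⟩ := g
  have key : ∃ hg : g ∈ Inn (op n), ⁅k, (⟨g, hg⟩ : Inn (op n))⁆ ∈ Kj hq hP1 n j := by
    refine inn_induction (hq n) (fun g => ∃ hg : g ∈ Inn (op n),
      ⁅k, (⟨g, hg⟩ : Inn (op n))⁆ ∈ Kj hq hP1 n j) ?_ ?_ ?_ ?_ hg
    · refine ⟨Subgroup.one_mem _, ?_⟩
      have h1 : (⟨1, Subgroup.one_mem _⟩ : Inn (op n)) = 1 := rfl
      rw [h1]
      simp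
    · intro b
      refine ⟨tr_mem (hq n) b, fun x => ?_⟩
      have h1 : ((⁅k, (⟨tr (hq n) b, tr_mem (hq n) b⟩ : Inn (op n))⁆ : Inn (op n)) :
          Equiv.Perm (X n)) = tr (hq n) ((k : Equiv.Perm (X n)) b) * (tr (hq n) b)⁻¹ := by
        rw [commutatorElement_def, ← conj_tr (hq n) k.2]
        rfl
      rw [h1]
      obtain ⟨y, rfl⟩ := (tr (hq n) b).surjective x
      rw [Equiv.Perm.mul_apply, Equiv.Perm.inv_def, Equiv.symm_apply_apply, tr_apply, tr_apply]
      exact E_step hP1 hP2 n j y _ _ (hk b)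
    · rintro x y ⟨hx, hx'⟩ ⟨hy, hy'⟩
      refine ⟨Subgroup.mul_mem _ hx hy, ?_⟩
      have h1 : (⟨x * y, Subgroup.mul_mem _ hx hy⟩ : Inn (op n)) = ⟨x, hx⟩ * ⟨y, hy⟩ := rfl
      have h2 : ∀ a b : Inn (op n), ⁅k, a * b⁆ = ⁅k, a⁆ * (a * ⁅k, b⁆ * a⁻¹) := by
        intro a b
        simp only [commutatorElement_def]; group
      rw [h1, h2]
      exact Subgroup.mul_mem _ hx' (hn.conj_mem _ hy' _)
    · rintro x ⟨hx, hx'⟩
      refine ⟨Subgroup.inv_mem _ hx, ?_⟩
      have h1 : (⟨x⁻¹, Subgroup.inv_mem _ hx⟩ : Inn (op n)) = (⟨x, hx⟩ : Inn (op n))⁻¹ := rfl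
      have h2 : ∀ a : Inn (op n), ⁅k, a⁻¹⁆ = a⁻¹ * ⁅k, a⁆⁻¹ * (a⁻¹)⁻¹ := by
        intro a
        simp only [commutatorElement_def]; group
      rw [h1, h2]
      exact hn.conj_mem _ (Subgroup.inv_mem _ hx') _
  exact key.2

theorem Kj_le (hq : ∀ n, IsQuandle (op n))
    (hP1 : ∀ n u v, pr n (op (n + 1) u v) = op n (pr n u) (pr n v))
    (hP2 : ∀ n u v v', pr n v = pr n v' → op (n + 1) u v = op (n + 1) u v') (n j : ℕ) :
    Kj hq hP1 n j ≤ Subgroup.upperCentralSeries (Inn (op n)) j := by
  induction j with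
  | zero =>
    intro g hg
    rw [Subgroup.upperCentralSeries_zero, Subgroup.mem_bot]
    apply Subtype.ext
    apply Equiv.ext
    intro x
    exact (E_zero pr n _ _).1 (hg x)
  | succ j ih =>
    intro g hg
    rw [Subgroup.mem_upperCentralSeries_succ_iff]
    intro y
    exact ih (Kj_step hq hP1 hP2 n j g hg y)

theorem P_surj (hpr : ∀ n, Function.Surjective (pr n)) (n : ℕ) :
    Function.Surjective (P pr n) := by
  induction n with
  | zero => exact fun x => ⟨x, rfl⟩
  | succ n ih => exact ih.comp (hpr n)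

theorem Kj_index [∀ n, Finite (X n)] (hq : ∀ n, IsQuandle (op n))
    (hP1 : ∀ n u v, pr n (op (n + 1) u v) = op n (pr n u) (pr n v))
    (hpr : ∀ n, Function.Surjective (pr n)) (n : ℕ) :
    (Kj hq hP1 n n).index ≤ Nat.card (X 0 → X 0) := by
  choose sec hsec using P_surj hpr n
  let F : Inn (op n) → (X 0 → X 0) := fun g a => P pr n ((g : Equiv.Perm (X n)) (sec a))
  have hF : ∀ g h : Inn (op n), F g = F h → g⁻¹ * h ∈ Kj hq hP1 n n := by
    intro g h hgh x
    have h1 : ∀ (g : Inn (op n)) (x : X n), F g (P pr n x) = P pr n ((g : Equiv.Perm (X n)) x) := by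
      intro g x
      have h2 : E pr n n (sec (P pr n x)) x := (E_P pr n _ _).2 (hsec _)
      exact (E_P pr n _ _).1 ((E_inn hq hP1 n n g.2 _ _).1 h2)
    rw [E_inn hq hP1 n n g.2, E_P]
    have h2 : (g : Equiv.Perm (X n)) (((g⁻¹ * h : Inn (op n)) : Equiv.Perm (X n)) x) =
        (h : Equiv.Perm (X n)) x := by
      simp
    rw [h2, ← h1, ← h1, hgh]
  apply Nat.card_le_card_of_injective (fun q : Inn (op n) ⧸ Kj hq hP1 n n => F q.out)
  intro q q' hqq
  have h1 := hF _ _ hqq
  rw [← QuotientGroup.eq] at h1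
  rw [QuotientGroup.out_eq', QuotientGroup.out_eq'] at h1
  exact h1

end Tower

/-- There is no infinite sequence of finite connected quandles in which every quandle is
isomorphic to an abelian extension of the preceding one by a nontrivial abelian group. -/
theorem result : ¬ ∃ (X : ℕ → Type) (op : ∀ n, X n → X n → X n),
    (∀ n, Finite (X n)) ∧ (∀ n, Nonempty (X n)) ∧ (∀ n, IsQuandle (op n)) ∧
      (∀ n, Connected (op n)) ∧ ∀ n, IsAbelianExtension (op n) (op (n + 1)) := by
  rintro ⟨X, op, hfin, hne, hq, hc, hext⟩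
  choose A hA hAn φ e hcoc he using hext
  let pr : ∀ n, X (n + 1) → X n := fun n x => (e n x).1
  have hP1 : ∀ n u v, pr n (op (n + 1) u v) = op n (pr n u) (pr n v) := by
    intro n u v
    show (e n (op (n + 1) u v)).1 = _
    rw [he n u v]
  have hP2 : ∀ n u v v', pr n v = pr n v' → op (n + 1) u v = op (n + 1) u v' := by
    intro n u v v' h
    apply (e n).injective
    have h' : (e n v).1 = (e n v').1 := h
    rw [he n u v, he n u v', h']
  have hpr : ∀ n, Function.Surjective (pr n) := by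
    intro n x
    exact ⟨(e n).symm (x, 0), by simp [pr]⟩
  have hcard : ∀ n, 2 ^ n ≤ Nat.card (X n) := by
    intro n
    induction n with
    | zero =>
      have := hne 0
      have := hfin 0
      rw [pow_zero]
      exact Nat.card_pos
    | succ n ih =>
      have h1 := Nat.card_congr (e n)
      rw [Nat.card_prod] at h1
      have hfA : Finite (A n) := by
        obtain ⟨x0⟩ := hne n
        have := hfin (n + 1)
        have := Finite.of_equiv _ (e n)
        exact Finite.of_injective (fun a : A n => (x0, a)) fun a b hab => (Prod.ext_iff.1 hab).2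
      have h2 : 2 ≤ Nat.card (A n) := by
        have := hAn n
        exact Finite.one_lt_card
      rw [h1, pow_succ]
      exact Nat.mul_le_mul ih h2
  set c := Nat.card (X 0 → X 0) with hcdef
  set N := c * c ^ (c * c ^ 2 + 1) with hN
  obtain ⟨x0⟩ := hne N
  have hfN := hfin N
  have hfI : Finite (Inn (op N)) := inferInstance
  have h1 := card_le (hq N) (hc N) x0
  have h2 := Q6.Tower.card_derived_le (gen_inn (hq N) (hc N) x0) (Kj hq hP1 N N) N
    (Kj_le hq hP1 hP2 N N) (Kj_index hq hP1 hpr N)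
  have h3 := (hcard N).trans (h1.trans h2)
  exact absurd h3 (not_le.2 Nat.lt_two_pow_self)

end Pool.Agent.Results.MP_caf75b_al.NoInfiniteTower
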